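import Mathlib
import Pool.Agent.Graceful.Order

set_option autoImplicit false

/-! # The tiling lemma -/

namespace Pool.Agent.GracefulLevel

open Finset

theorem tiling {V : Type*} [Fintype V] (C : Finset V) (ρ : V → ℕ) (I : ℕ)
    (hρ : ∀ v ∈ C, ρ v < I) :
    ∃ (idx : V → ℕ) (cum : ℕ → ℕ), (∀ v ∈ C, idx v < C.card) ∧
      (∀ u ∈ C, ∀ v ∈ C, idx u = idx v → u = v) ∧ (∀ s, cum s ≤ C.card) ∧
      (∀ u ∈ C, ∀ v ∈ C, idx u + ρ u = idx v + ρ v → u = v) ∧
      (∀ s s', cum s + s = cum s' + s' → s = s') ∧
      (∀ v ∈ C, ∀ s, idx v + ρ v ≠ cum s + s) ∧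
      (∀ t < C.card + (I - 1), (∃ v ∈ C, idx v + ρ v = t) ∨ ∃ s < I - 1, cum s + s = t) ∧
      (∀ i < C.card, ∃ v ∈ C, idx v = i) := by
  classical
  let e : V → ℕ := fun v => (Fintype.equivFin V v : ℕ)
  have he : ∀ v, e v < Fintype.card V := fun v => (Fintype.equivFin V v).2
  have heinj : Function.Injective e := by
    intro u v h
    exact (Fintype.equivFin V).injective (Fin.ext h)
  let key : V → ℕ := fun v => ρ v * Fintype.card V + e v
  have hkey : ∀ u v, key u ≤ key v → ρ u ≤ ρ v := by
    intro u v h
    by_contra hcon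
    push Not at hcon
    have h1 : (ρ v + 1) * Fintype.card V ≤ ρ u * Fintype.card V := Nat.mul_le_mul_right _ hcon
    have h2 := he v
    have h3 : key u = ρ u * Fintype.card V + e u := rfl
    have h4 : key v = ρ v * Fintype.card V + e v := rfl
    have h5 : (ρ v + 1) * Fintype.card V = ρ v * Fintype.card V + Fintype.card V := by ring
    omega
  have hkeyinj : Function.Injective key := by
    intro u v h
    have h1 : ρ u = ρ v := le_antisymm (hkey u v h.le) (hkey v u h.ge)
    apply heinj
    have h3 : key u = ρ u * Fintype.card V + e u := rfl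
    have h4 : key v = ρ v * Fintype.card V + e v := rfl
    rw [h1] at h3
    omega
  obtain ⟨idx, hidx1, hidx2, hidx3⟩ := Graceful.exists_rank C key hkeyinj
  have hmono : ∀ u ∈ C, ∀ v ∈ C, idx u ≤ idx v → ρ u ≤ ρ v := by
    intro u hu v hv h
    exact hkey u v ((hidx2 u hu v hv).1 h)
  have hinj : ∀ u ∈ C, ∀ v ∈ C, idx u = idx v → u = v := by
    intro u hu v hv h
    exact hkeyinj (le_antisymm ((hidx2 u hu v hv).1 h.le) ((hidx2 v hv u hu).1 h.ge))
  let cum : ℕ → ℕ := fun s => (C.filter fun v => ρ v ≤ s).card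
  have hcumle : ∀ s, cum s ≤ C.card := fun s => card_filter_le _ _
  have hcummono : ∀ s s', s ≤ s' → cum s ≤ cum s' := by
    intro s s' h
    apply card_le_card
    intro v hv
    rw [mem_filter] at hv ⊢
    exact ⟨hv.1, hv.2.trans h⟩
  have hlt : ∀ v ∈ C, ∀ s, ρ v ≤ s → idx v + 1 ≤ cum s := by
    intro v hv s hs
    have h1 : range (idx v + 1) ⊆ (C.filter fun v => ρ v ≤ s).image idx := by
      intro i hi
      rw [mem_range] at hi
      obtain ⟨u, hu, hui⟩ := hidx3 i (by have := hidx1 v hv; omega)
      rw [mem_image]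
      refine ⟨u, ?_, hui⟩
      rw [mem_filter]
      exact ⟨hu, (hmono u hu v hv (by omega)).trans hs⟩
    have h2 := (card_le_card h1).trans card_image_le
    rw [card_range] at h2
    exact h2
  have hge : ∀ v ∈ C, ∀ s, s < ρ v → cum s ≤ idx v := by
    intro v hv s hs
    have h1 : (C.filter fun v => ρ v ≤ s).image idx ⊆ range (idx v) := by
      intro i hi
      rw [mem_image] at hi
      obtain ⟨u, hu, rfl⟩ := hi
      rw [mem_filter] at hu
      rw [mem_range]
      by_contra hcon
      push Not at hcon
      have := hmono v hv u hu.1 hcon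
      omega
    have h2 := card_le_card h1
    rw [card_image_of_injOn, card_range] at h2
    · exact h2
    · intro u hu v hv h
      have hu' : u ∈ C.filter fun v => ρ v ≤ s := by exact_mod_cast hu
      have hv' : v ∈ C.filter fun v => ρ v ≤ s := by exact_mod_cast hv
      rw [mem_filter] at hu' hv'
      exact hinj u hu'.1 v hv'.1 h
  have hT1 : ∀ u ∈ C, ∀ v ∈ C, idx u + ρ u = idx v + ρ v → u = v := by
    intro u hu v hv h
    rcases lt_trichotomy (idx u) (idx v) with h1 | h1 | h1
    · have := hmono u hu v hv h1.le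
      omega
    · exact hinj u hu v hv h1
    · have := hmono v hv u hu h1.le
      omega
  have hT2 : ∀ s s', cum s + s = cum s' + s' → s = s' := by
    intro s s' h
    rcases lt_trichotomy s s' with h1 | h1 | h1
    · have := hcummono s s' h1.le
      omega
    · exact h1
    · have := hcummono s' s h1.le
      omega
  have hT3 : ∀ v ∈ C, ∀ s, idx v + ρ v ≠ cum s + s := by
    intro v hv s
    rcases le_or_gt (ρ v) s with h | h
    · have := hlt v hv s h
      omega
    · have := hge v hv s h
      omega
  refine ⟨idx, cum, hidx1, hinj, hcumle, hT1, hT2, hT3, ?_, hidx3⟩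
  have h1 : C.image (fun v => idx v + ρ v) ∪ (range (I - 1)).image (fun s => cum s + s) =
      range (C.card + (I - 1)) := by
    apply eq_of_subset_of_card_le
    · intro t ht
      rw [mem_union, mem_image, mem_image] at ht
      rw [mem_range]
      rcases ht with ⟨v, hv, rfl⟩ | ⟨s, hs, rfl⟩
      · have := hidx1 v hv
        have := hρ v hv
        omega
      · rw [mem_range] at hs
        have := hcumle s
        omega
    · rw [card_range, card_union_of_disjoint, card_image_of_injOn, card_image_of_injOn, card_range]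
      · intro s _ s' _ h
        exact hT2 s s' h
      · intro u hu v hv h
        exact hT1 u (by exact_mod_cast hu) v (by exact_mod_cast hv) h
      · rw [Finset.disjoint_left]
        intro t ht ht'
        rw [mem_image] at ht ht'
        obtain ⟨v, hv, h2⟩ := ht
        obtain ⟨s, hs, h3⟩ := ht'
        exact hT3 v hv s (h2.trans h3.symm)
  intro t ht
  have h2 : t ∈ C.image (fun v => idx v + ρ v) ∪ (range (I - 1)).image (fun s => cum s + s) := by
    rw [h1, mem_range]; exact ht
  rw [mem_union, mem_image, mem_image] at h2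
  rcases h2 with ⟨v, hv, h2⟩ | ⟨s, hs, h2⟩
  · exact Or.inl ⟨v, hv, h2⟩
  · exact Or.inr ⟨s, mem_range.1 hs, h2⟩

end Pool.Agent.GracefulLevel
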