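import Mathlib
import Pool.Agent.GracefulAsym.Defs
import Pool.Agent.GracefulLevel.Tiling

set_option autoImplicit false

/-! # The layered construction -/

namespace Pool.Agent.GracefulLevel

open Finset Pool.Agent.GracefulAsym

/-- the structure produced for the part of the tree below depth `ℓ`: the roots (vertices of depth
`ℓ` having children) sit at the positions `< I`, all lower vertices at positions in `[I, I + N)`;
`E` is the parent map on all positions, and all the differences `1, ..., N` occur once. -/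
structure Lay {V : Type*} (R : RT V) (ℓ I N : ℕ) (pos : V → ℕ) (E : ℕ → ℕ) : Prop where
  mem : ∀ v, ℓ < R.dep v → I ≤ pos v ∧ pos v < I + N
  inj : ∀ u v, ℓ < R.dep u → ℓ < R.dep v → pos u = pos v → u = v
  par : ∀ v, ℓ < R.dep v → E (pos v) = pos (R.par v)
  bd : ∀ p, I ≤ p → p < I + N → E p < I + N ∧ 1 ≤ ad p (E p) ∧ ad p (E p) ≤ N
  dif : ∀ p q, I ≤ p → p < I + N → I ≤ q → q < I + N → ad p (E p) = ad q (E q) → p = q
  reach : ∀ p, I ≤ p → p < I + N → ∃ k, E^[k] p < I

theorem lay_step {V : Type*} [Fintype V] [DecidableEq V] (R : RT V) (ℓ I : ℕ) (hI : 1 ≤ I)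
    (Q C Lf : Finset V)
    (hQ : ∀ v, v ∈ Q ↔ R.dep v = ℓ ∧ ∃ c, c ≠ R.r ∧ R.par c = v)
    (hC : ∀ v, v ∈ C ↔ R.dep v = ℓ + 1 ∧ ∃ c, c ≠ R.r ∧ R.par c = v)
    (hLf : ∀ v, v ∈ Lf ↔ R.dep v = ℓ + 1 ∧ ¬ ∃ c, c ≠ R.r ∧ R.par c = v)
    (idx : V → ℕ) (hidx : ∀ v ∈ Q, idx v < I)
    (idxA : V → ℕ) (cumA : ℕ → ℕ) (hA1 : ∀ v ∈ Lf, idxA v < Lf.card)
    (hA2 : ∀ u ∈ Lf, ∀ v ∈ Lf, idxA u = idxA v → u = v) (hA3 : ∀ s, cumA s ≤ Lf.card)
    (hA4 : ∀ u ∈ Lf, ∀ v ∈ Lf, idxA u + (I - 1 - idx (R.par u)) =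
      idxA v + (I - 1 - idx (R.par v)) → u = v)
    (hA5 : ∀ s s', cumA s + s = cumA s' + s' → s = s')
    (hA6 : ∀ v ∈ Lf, ∀ s, idxA v + (I - 1 - idx (R.par v)) ≠ cumA s + s)
    (hA7 : ∀ t < Lf.card + (I - 1), (∃ v ∈ Lf, idxA v + (I - 1 - idx (R.par v)) = t) ∨
      ∃ s < I - 1, cumA s + s = t)
    (idxB : V → ℕ) (cumB : ℕ → ℕ) (hB1 : ∀ v ∈ C, idxB v < C.card)
    (hB2 : ∀ u ∈ C, ∀ v ∈ C, idxB u = idxB v → u = v) (hB3 : ∀ s, cumB s ≤ C.card)
    (hB4 : ∀ u ∈ C, ∀ v ∈ C, idxB u + idx (R.par u) = idxB v + idx (R.par v) → u = v)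
    (hB5 : ∀ s s', cumB s + s = cumB s' + s' → s = s')
    (hB6 : ∀ v ∈ C, ∀ s, idxB v + idx (R.par v) ≠ cumB s + s)
    (hB8 : ∀ i < C.card, ∃ v ∈ C, idxB v = i)
    (N' : ℕ) (pos' : V → ℕ) (E' : ℕ → ℕ) (hpos' : ∀ v ∈ C, pos' v = idxB v)
    (hlay : Lay R (ℓ + 1) C.card N' pos' E') :
    ∃ (pos : V → ℕ) (E : ℕ → ℕ), (∀ v ∈ Q, pos v = idx v) ∧
      Lay R ℓ I (N' + Lf.card + C.card + (I - 1)) pos E := by
  classical
  obtain ⟨B, hB⟩ : ∃ B, B = C.card := ⟨_, rfl⟩
  obtain ⟨A, hA⟩ : ∃ A, A = Lf.card := ⟨_, rfl⟩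
  rw [← hB] at hlay hB1 hB3 hB8
  rw [← hA] at hA1 hA3 hA7
  rw [← hB, ← hA]
  obtain ⟨N, hN⟩ : ∃ N, N = N' + A + B + (I - 1) := ⟨_, rfl⟩
  rw [← hN]
  obtain ⟨M, hM⟩ : ∃ M, M = N' + B + (I - 1) := ⟨_, rfl⟩
  obtain ⟨top, htop⟩ : ∃ top, top = I - 1 + N := ⟨_, rfl⟩
  -- parents
  have hparQ : ∀ v, R.dep v = ℓ + 1 → R.par v ∈ Q := by
    intro v hv
    have hvr : v ≠ R.r := by
      intro h
      rw [h, R.dep_r] at hv
      omega
    rw [hQ]
    have := R.dep_par v hvr
    exact ⟨by omega, v, hvr, rfl⟩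
  have hρ : ∀ v, R.dep v = ℓ + 1 → idx (R.par v) < I := fun v hv => hidx _ (hparQ v hv)
  have hCdep : ∀ v ∈ C, R.dep v = ℓ + 1 := fun v hv => ((hC v).1 hv).1
  have hLdep : ∀ v ∈ Lf, R.dep v = ℓ + 1 := fun v hv => ((hLf v).1 hv).1
  -- the parent maps of the two outer zones
  obtain ⟨pB, hpB⟩ : ∃ pB : ℕ → ℕ, ∀ v ∈ C, pB (idxB v) = idx (R.par v) := by
    refine ⟨fun i => if h : ∃ v ∈ C, idxB v = i then idx (R.par h.choose) else 0, ?_⟩
    intro v hv
    have h : ∃ u ∈ C, idxB u = idxB v := ⟨v, hv, rfl⟩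
    simp only [dif_pos h]
    have := h.choose_spec
    rw [hB2 _ this.1 v hv this.2]
  obtain ⟨F, hF1, hF2⟩ : ∃ F : ℕ → ℕ,
      (∀ v ∈ Lf, F (idxA v + (I - 1 - idx (R.par v))) = idx (R.par v)) ∧
      (∀ s < I - 1, F (cumA s + s) = (I - 1) + (A - cumA s) + cumB s) := by
    refine ⟨fun t => if h : ∃ v ∈ Lf, idxA v + (I - 1 - idx (R.par v)) = t then
      idx (R.par h.choose) else if h : ∃ s < I - 1, cumA s + s = t then
      (I - 1) + (A - cumA h.choose) + cumB h.choose else 0, ?_, ?_⟩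
    · intro v hv
      have h : ∃ u ∈ Lf, idxA u + (I - 1 - idx (R.par u)) =
        idxA v + (I - 1 - idx (R.par v)) := ⟨v, hv, rfl⟩
      simp only [dif_pos h]
      have := h.choose_spec
      rw [hA4 _ this.1 v hv this.2]
    · intro s hs
      have h1 : ¬ ∃ u ∈ Lf, idxA u + (I - 1 - idx (R.par u)) = cumA s + s := by
        rintro ⟨u, hu, h⟩
        exact hA6 u hu s h
      have h : ∃ s' < I - 1, cumA s' + s' = cumA s + s := ⟨s, hs, rfl⟩
      simp only [dif_neg h1, dif_pos h]
      have := h.choose_spec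
      rw [hA5 _ s this.2]
  let pos : V → ℕ := fun v => if v ∈ Lf then top - (idxA v + (I - 1 - idx (R.par v))) else
    if ℓ < R.dep v then M - pos' v else idx v
  let E : ℕ → ℕ := fun p => if p < I + N' then M - E' (M - p) else
    if p < I + N' + B then pB (M - p) else F (top - p)
  -- values of pos
  have hposL : ∀ v ∈ Lf, pos v = top - (idxA v + (I - 1 - idx (R.par v))) := by
    intro v hv
    simp only [pos, if_pos hv]
  have hposC : ∀ v ∈ C, pos v = M - idxB v := by
    intro v hv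
    have h1 : v ∉ Lf := fun h => ((hLf v).1 h).2 ((hC v).1 hv).2
    have h2 : ℓ < R.dep v := by rw [hCdep v hv]; omega
    simp only [pos, if_neg h1, if_pos h2, hpos' v hv]
  have hposD : ∀ v, ℓ + 1 < R.dep v → pos v = M - pos' v := by
    intro v hv
    have h1 : v ∉ Lf := fun h => by have := hLdep v h; omega
    have h2 : ℓ < R.dep v := by omega
    simp only [pos, if_neg h1, if_pos h2]
  have hposQ : ∀ v ∈ Q, pos v = idx v := by
    intro v hv
    have h0 := ((hQ v).1 hv).1
    have h1 : v ∉ Lf := fun h => by have := hLdep v h; omega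
    have h2 : ¬ ℓ < R.dep v := by omega
    simp only [pos, if_neg h1, if_neg h2]
  -- trichotomy of vertices
  have htri : ∀ v, ℓ < R.dep v → v ∈ Lf ∨ v ∈ C ∨ ℓ + 1 < R.dep v := by
    intro v hv
    by_cases h : R.dep v = ℓ + 1
    · by_cases h' : ∃ c, c ≠ R.r ∧ R.par c = v
      · exact Or.inr (Or.inl ((hC v).2 ⟨h, h'⟩))
      · exact Or.inl ((hLf v).2 ⟨h, h'⟩)
    · right; right; omega
  -- bounds for the zones
  have hzL : ∀ v ∈ Lf, I + N' + B ≤ pos v ∧ pos v < I + N ∧ top - pos v =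
      idxA v + (I - 1 - idx (R.par v)) := by
    intro v hv
    have h1 := hA1 v hv
    have h2 := hρ v (hLdep v hv)
    rw [hposL v hv]
    refine ⟨by omega, by omega, by omega⟩
  have hzC : ∀ v ∈ C, I + N' ≤ pos v ∧ pos v < I + N' + B ∧ M - pos v = idxB v := by
    intro v hv
    have h1 := hB1 v hv
    rw [hposC v hv]
    refine ⟨by omega, by omega, by omega⟩
  have hzD : ∀ v, ℓ + 1 < R.dep v → I ≤ pos v ∧ pos v < I + N' ∧ M - pos v = pos' v := by
    intro v hv
    have h1 := hlay.mem v hv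
    rw [hposD v hv]
    refine ⟨by omega, by omega, by omega⟩
  -- values of E
  have hE1 : ∀ p, I ≤ p → p < I + N' → E p = M - E' (M - p) ∧ B ≤ M - p ∧ M - p < B + N' ∧
      E' (M - p) < B + N' := by
    intro p h1 h2
    refine ⟨by simp only [E, if_pos h2], by omega, by omega, ?_⟩
    exact (hlay.bd (M - p) (by omega) (by omega)).1
  have hE2 : ∀ v ∈ C, E (pos v) = idx (R.par v) := by
    intro v hv
    obtain ⟨h1, h2, h3⟩ := hzC v hv
    have h4 : ¬ pos v < I + N' := by omega
    simp only [E, if_neg h4, if_pos h2, h3]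
    exact hpB v hv
  have hE3 : ∀ v ∈ Lf, E (pos v) = idx (R.par v) := by
    intro v hv
    obtain ⟨h1, h2, h3⟩ := hzL v hv
    have h4 : ¬ pos v < I + N' := by omega
    have h5 : ¬ pos v < I + N' + B := by omega
    simp only [E, if_neg h4, if_neg h5, h3]
    exact hF1 v hv
  have hE4 : ∀ s < I - 1, E (top - (cumA s + s)) = (I - 1) + (A - cumA s) + cumB s := by
    intro s hs
    have h1 := hA3 s
    have h4 : ¬ top - (cumA s + s) < I + N' := by omega
    have h5 : ¬ top - (cumA s + s) < I + N' + B := by omega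
    have h6 : top - (top - (cumA s + s)) = cumA s + s := by omega
    simp only [E, if_neg h4, if_neg h5, h6]
    exact hF2 s hs
  -- the four kinds of positions
  have hkind : ∀ p, I ≤ p → p < I + N → p < I + N' ∨ (∃ v ∈ C, pos v = p) ∨
      (∃ v ∈ Lf, pos v = p) ∨ ∃ s < I - 1, top - (cumA s + s) = p := by
    intro p h1 h2
    by_cases h3 : p < I + N'
    · exact Or.inl h3
    · by_cases h4 : p < I + N' + B
      · obtain ⟨v, hv, hvi⟩ := hB8 (M - p) (by omega)
        right; left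
        refine ⟨v, hv, ?_⟩
        rw [hposC v hv, hvi]
        omega
      · rcases hA7 (top - p) (by omega) with ⟨v, hv, h5⟩ | ⟨s, hs, h5⟩
        · right; right; left
          refine ⟨v, hv, ?_⟩
          rw [hposL v hv, h5]
          omega
        · right; right; right
          refine ⟨s, hs, ?_⟩
          omega
  -- differences
  have hd1 : ∀ p, I ≤ p → p < I + N' → ad p (E p) = ad (M - p) (E' (M - p)) ∧
      1 ≤ ad p (E p) ∧ ad p (E p) ≤ N' := by
    intro p h1 h2
    obtain ⟨h3, h4, h5, h6⟩ := hE1 p h1 h2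
    obtain ⟨h7, h8, h9⟩ := hlay.bd (M - p) (by omega) (by omega)
    have h10 : ad p (E p) = ad (M - p) (E' (M - p)) := by
      rw [h3]
      unfold ad
      omega
    rw [h10]
    exact ⟨rfl, h8, h9⟩
  have hd2 : ∀ v ∈ C, ad (pos v) (E (pos v)) + (idxB v + idx (R.par v)) = M ∧
      N' < ad (pos v) (E (pos v)) := by
    intro v hv
    have h1 := hB1 v hv
    have h2 := hρ v (hCdep v hv)
    rw [hE2 v hv, hposC v hv]
    unfold ad
    omega
  have hd3 : ∀ v ∈ Lf, ad (pos v) (E (pos v)) + idxA v = N ∧ M < ad (pos v) (E (pos v)) := by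
    intro v hv
    have h1 := hA1 v hv
    have h2 := hρ v (hLdep v hv)
    rw [hE3 v hv, hposL v hv]
    unfold ad
    omega
  have hd4 : ∀ s < I - 1, ad (top - (cumA s + s)) (E (top - (cumA s + s))) + (cumB s + s) = M ∧
      N' < ad (top - (cumA s + s)) (E (top - (cumA s + s))) := by
    intro s hs
    have h1 := hA3 s
    have h2 := hB3 s
    rw [hE4 s hs]
    unfold ad
    omega
  refine ⟨pos, E, hposQ, ?_, ?_, ?_, ?_, ?_, ?_⟩
  · -- mem
    intro v hv
    rcases htri v hv with h | h | h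
    · have := hzL v h; omega
    · have := hzC v h; omega
    · have := hzD v h; omega
  · -- inj
    intro u v hu hv h
    rcases htri u hu with hu' | hu' | hu'
    · have h1 := hzL u hu'
      rcases htri v hv with hv' | hv' | hv'
      · have h2 := hzL v hv'
        apply hA4 u hu' v hv'
        omega
      · have h2 := hzC v hv'; omega
      · have h2 := hzD v hv'; omega
    · have h1 := hzC u hu'
      rcases htri v hv with hv' | hv' | hv'
      · have h2 := hzL v hv'; omega
      · have h2 := hzC v hv'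
        apply hB2 u hu' v hv'
        omega
      · have h2 := hzD v hv'; omega
    · have h1 := hzD u hu'
      rcases htri v hv with hv' | hv' | hv'
      · have h2 := hzL v hv'; omega
      · have h2 := hzC v hv'; omega
      · have h2 := hzD v hv'
        apply hlay.inj u v hu' hv'
        omega
  · -- par
    intro v hv
    rcases htri v hv with h | h | h
    · rw [hE3 v h, hposQ _ (hparQ v (hLdep v h))]
    · rw [hE2 v h, hposQ _ (hparQ v (hCdep v h))]
    · obtain ⟨h1, h2, h3⟩ := hzD v h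
      obtain ⟨h4, -⟩ := hE1 (pos v) h1 h2
      have hvr : v ≠ R.r := by
        intro h'
        rw [h', R.dep_r] at hv
        omega
      have hdp := R.dep_par v hvr
      rw [h4, h3, hlay.par v h]
      rcases htri (R.par v) (by omega) with h5 | h5 | h5
      · exact absurd ⟨v, hvr, rfl⟩ ((hLf _).1 h5).2
      · rw [hposC _ h5, hpos' _ h5]
      · rw [hposD _ h5]
  · -- bd
    intro p h1 h2
    rcases hkind p h1 h2 with h | ⟨v, hv, rfl⟩ | ⟨v, hv, rfl⟩ | ⟨s, hs, rfl⟩
    · obtain ⟨h3, h4, h5, h6⟩ := hE1 p h1 h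
      obtain ⟨h7, h8, h9⟩ := hd1 p h1 h
      refine ⟨by rw [h3]; omega, h8, by omega⟩
    · have h3 := hd2 v hv
      have h4 := hE2 v hv
      have h5 := hρ v (hCdep v hv)
      refine ⟨by omega, by omega, by omega⟩
    · have h3 := hd3 v hv
      have h4 := hE3 v hv
      have h5 := hρ v (hLdep v hv)
      refine ⟨by omega, by omega, by omega⟩
    · have h3 := hd4 s hs
      have h4 := hE4 s hs
      have h5 := hA3 s
      have h6 := hB3 s
      refine ⟨by omega, by omega, by omega⟩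
  · -- dif
    intro p q hp1 hp2 hq1 hq2 h
    rcases hkind p hp1 hp2 with hp | ⟨v, hv, rfl⟩ | ⟨v, hv, rfl⟩ | ⟨s, hs, rfl⟩
    · have h1 := hd1 p hp1 hp
      rcases hkind q hq1 hq2 with hq | ⟨w, hw, rfl⟩ | ⟨w, hw, rfl⟩ | ⟨t, ht, rfl⟩
      · have h2 := hd1 q hq1 hq
        have h3 := hE1 p hp1 hp
        have h4 := hE1 q hq1 hq
        have h5 := hlay.dif (M - p) (M - q) (by omega) (by omega) (by omega) (by omega)
          (by rw [← h1.1, ← h2.1]; exact h)
        omega
      · have h2 := hd2 w hw; omega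
      · have h2 := hd3 w hw; omega
      · have h2 := hd4 t ht; omega
    · have h1 := hd2 v hv
      rcases hkind q hq1 hq2 with hq | ⟨w, hw, rfl⟩ | ⟨w, hw, rfl⟩ | ⟨t, ht, rfl⟩
      · have h2 := hd1 q hq1 hq; omega
      · have h2 := hd2 w hw
        rw [hB4 v hv w hw (by omega)]
      · have h2 := hd3 w hw; omega
      · have h2 := hd4 t ht
        exfalso
        apply hB6 v hv t
        omega
    · have h1 := hd3 v hv
      rcases hkind q hq1 hq2 with hq | ⟨w, hw, rfl⟩ | ⟨w, hw, rfl⟩ | ⟨t, ht, rfl⟩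
      · have h2 := hd1 q hq1 hq; omega
      · have h2 := hd2 w hw; omega
      · have h2 := hd3 w hw
        rw [hA2 v hv w hw (by omega)]
      · have h2 := hd4 t ht; omega
    · have h1 := hd4 s hs
      rcases hkind q hq1 hq2 with hq | ⟨w, hw, rfl⟩ | ⟨w, hw, rfl⟩ | ⟨t, ht, rfl⟩
      · have h2 := hd1 q hq1 hq; omega
      · have h2 := hd2 w hw
        exfalso
        apply hB6 w hw s
        omega
      · have h2 := hd3 w hw; omega
      · have h2 := hd4 t ht
        rw [hB5 s t (by omega)]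
  · -- reach
    have hr2 : ∀ v ∈ C, E^[1] (pos v) < I := by
      intro v hv
      rw [Function.iterate_one, hE2 v hv]
      exact hρ v (hCdep v hv)
    have hr2' : ∀ q, q < B → E^[1] (M - q) < I := by
      intro q hq
      obtain ⟨v, hv, hvq⟩ := hB8 q hq
      rw [← hvq, ← hposC v hv]
      exact hr2 v hv
    have hr1 : ∀ k q, B ≤ q → q < B + N' → E'^[k] q < B → ∃ k', E^[k'] (M - q) < I := by
      intro k
      induction k with
      | zero =>
        intro q h1 h2 h3
        rw [Function.iterate_zero, id] at h3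
        omega
      | succ k ih =>
        intro q h1 h2 h3
        rw [Function.iterate_succ_apply] at h3
        have h4 : E (M - q) = M - E' q := by
          have := (hE1 (M - q) (by omega) (by omega)).1
          rw [this]
          have h5 : M - (M - q) = q := by omega
          rw [h5]
        have h5 := (hlay.bd q h1 h2).1
        by_cases h6 : E' q < B
        · refine ⟨2, ?_⟩
          rw [Function.iterate_succ_apply, h4]
          exact hr2' _ h6
        · obtain ⟨k', hk'⟩ := ih (E' q) (by omega) h5 h3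
          refine ⟨k' + 1, ?_⟩
          rw [Function.iterate_succ_apply, h4]
          exact hk'
    intro p
    induction p using Nat.strong_induction_on with
    | _ p ih =>
      intro h1 h2
      rcases hkind p h1 h2 with h | ⟨v, hv, rfl⟩ | ⟨v, hv, rfl⟩ | ⟨s, hs, rfl⟩
      · obtain ⟨h3, h4, h5, h6⟩ := hE1 p h1 h
        obtain ⟨k, hk⟩ := hlay.reach (M - p) h4 h5
        obtain ⟨k', hk'⟩ := hr1 k (M - p) h4 h5 hk
        refine ⟨k', ?_⟩
        have h7 : M - (M - p) = p := by omega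
        rwa [h7] at hk'
      · exact ⟨1, hr2 v hv⟩
      · refine ⟨1, ?_⟩
        rw [Function.iterate_one, hE3 v hv]
        exact hρ v (hLdep v hv)
      · have h3 := hE4 s hs
        have h4 := hd4 s hs
        have h5 := hA3 s
        have h6 := hB3 s
        by_cases h7 : E (top - (cumA s + s)) < I
        · exact ⟨1, by rw [Function.iterate_one]; exact h7⟩
        · obtain ⟨k, hk⟩ := ih (E (top - (cumA s + s))) (by omega) (by omega) (by omega)
          exact ⟨k + 1, by rw [Function.iterate_succ_apply]; exact hk⟩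

end Pool.Agent.GracefulLevel
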