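import Mathlib
import Pool.Agent.GracefulAsym.Assembly
import Pool.Agent.GracefulLevel.Layer

set_option autoImplicit false

/-! # The bound by levels -/

namespace Pool.Agent.GracefulLevel

open Finset SimpleGraph Pool.Agent.Graceful Pool.Agent.GracefulAsym

open Classical in
/-- the vertices of depth `ℓ` which have a child -/
noncomputable def lev {V : Type*} [Fintype V] (R : RT V) (ℓ : ℕ) : Finset V :=
  univ.filter fun v => R.dep v = ℓ ∧ ∃ c, c ≠ R.r ∧ R.par c = v

theorem mem_lev {V : Type*} [Fintype V] (R : RT V) (ℓ : ℕ) (v : V) :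
    v ∈ lev R ℓ ↔ R.dep v = ℓ ∧ ∃ c, c ≠ R.r ∧ R.par c = v := by
  unfold lev; simp

theorem ne_root {V : Type*} (R : RT V) {v : V} (h : 0 < R.dep v) : v ≠ R.r := by
  intro h'
  rw [h', R.dep_r] at h
  omega

theorem dep_le_of_lev_empty {V : Type*} [Fintype V] (R : RT V) (ℓ : ℕ) (h : lev R ℓ = ∅) :
    ∀ n v, R.dep v = n → n ≤ ℓ := by
  intro n
  induction n with
  | zero => intro v _; omega
  | succ n ih =>
    intro v hv
    have hvr := ne_root R (v := v) (by omega)
    have h1 := R.dep_par v hvr
    have h2 := ih (R.par v) (by omega)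
    rcases h2.lt_or_eq with h3 | h3
    · omega
    · exfalso
      have h4 : R.par v ∈ lev R ℓ := (mem_lev R ℓ _).2 ⟨by omega, v, hvr, rfl⟩
      rw [h] at h4
      simp at h4

theorem exists_lay {V : Type*} [Fintype V] [DecidableEq V] (R : RT V) :
    ∀ k ℓ, (∀ v, R.dep v ≤ ℓ + k) → ∀ idx : V → ℕ, (∀ v ∈ lev R ℓ, idx v < (lev R ℓ).card) →
      ∃ (N : ℕ) (pos : V → ℕ) (E : ℕ → ℕ),
        N = (univ.filter fun v => ℓ < R.dep v).card +
          ∑ j ∈ range k, ((lev R (ℓ + j)).card - 1) ∧
        (∀ v ∈ lev R ℓ, pos v = idx v) ∧ Lay R ℓ (lev R ℓ).card N pos E := by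
  intro k
  induction k with
  | zero =>
    intro ℓ hd idx _
    refine ⟨0, idx, id, ?_, fun _ _ => rfl, ?_⟩
    · have h1 : (univ.filter fun v => ℓ < R.dep v) = ∅ := by
        apply filter_false_of_mem
        intro v _
        have := hd v
        omega
      rw [h1]; simp
    · constructor
      · intro v hv; have := hd v; omega
      · intro u v hu; have := hd u; omega
      · intro v hv; have := hd v; omega
      · intro p h1 h2; omega
      · intro p q h1 h2; omega
      · intro p h1 h2; omega
  | succ k ih =>
    intro ℓ hd idx hidx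
    by_cases hI : lev R ℓ = ∅
    · have hdl := dep_le_of_lev_empty R ℓ hI
      refine ⟨0, idx, id, ?_, fun _ _ => rfl, ?_⟩
      · have h1 : (univ.filter fun v => ℓ < R.dep v) = ∅ := by
          apply filter_false_of_mem
          intro v _
          have := hdl _ v rfl
          omega
        rw [h1, card_empty, zero_add]
        symm
        apply sum_eq_zero
        intro j _
        rcases Nat.eq_zero_or_pos j with rfl | hj
        · rw [add_zero, hI]; simp
        · have h2 : lev R (ℓ + j) = ∅ := by
            rw [eq_empty_iff_forall_notMem]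
            intro v hv
            rw [mem_lev] at hv
            have := hdl _ v hv.1
            omega
          rw [h2]; simp
      · constructor
        · intro v hv; have := hdl _ v rfl; omega
        · intro u v hu; have := hdl _ u rfl; omega
        · intro v hv; have := hdl _ v rfl; omega
        · intro p h1 h2; omega
        · intro p q h1 h2; omega
        · intro p h1 h2; omega
    · have hI' : 1 ≤ (lev R ℓ).card := by
        rw [Nat.one_le_iff_ne_zero, card_ne_zero]
        exact nonempty_iff_ne_empty.2 hI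
      have hparQ : ∀ v, R.dep v = ℓ + 1 → idx (R.par v) < (lev R ℓ).card := by
        intro v hv
        apply hidx
        have hvr := ne_root R (v := v) (by omega)
        have := R.dep_par v hvr
        exact (mem_lev R ℓ _).2 ⟨by omega, v, hvr, rfl⟩
      classical
      obtain ⟨Lf, hLf⟩ : ∃ Lf : Finset V, ∀ v, v ∈ Lf ↔
          R.dep v = ℓ + 1 ∧ ¬ ∃ c, c ≠ R.r ∧ R.par c = v :=
        ⟨univ.filter fun v => R.dep v = ℓ + 1 ∧ ¬ ∃ c, c ≠ R.r ∧ R.par c = v, by simp⟩
      obtain ⟨idxA, cumA, hA1, hA2, hA3, hA4, hA5, hA6, hA7, -⟩ :=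
        tiling Lf (fun v => (lev R ℓ).card - 1 - idx (R.par v)) (lev R ℓ).card (by
          intro v hv
          omega)
      obtain ⟨idxB, cumB, hB1, hB2, hB3, hB4, hB5, hB6, hB7, hB8⟩ :=
        tiling (lev R (ℓ + 1)) (fun v => idx (R.par v)) (lev R ℓ).card (by
          intro v hv
          rw [mem_lev] at hv
          exact hparQ v hv.1)
      obtain ⟨N', pos', E', hN', hpos', hlay'⟩ := ih (ℓ + 1) (by intro v; have := hd v; omega)
        idxB hB1
      obtain ⟨pos, E, hpos, hlay⟩ := lay_step R ℓ (lev R ℓ).card hI' (lev R ℓ) (lev R (ℓ + 1)) Lf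
        (mem_lev R ℓ) (mem_lev R (ℓ + 1)) hLf idx hidx idxA cumA hA1 hA2 hA3 hA4 hA5 hA6 hA7
        idxB cumB hB1 hB2 hB3 hB4 hB5 hB6 hB8 N' pos' E' hpos' hlay'
      refine ⟨_, pos, E, ?_, hpos, hlay⟩
      have h1 : (univ.filter fun v => ℓ < R.dep v) =
          (univ.filter fun v => ℓ + 1 < R.dep v) ∪ (Lf ∪ lev R (ℓ + 1)) := by
        ext v
        simp only [mem_filter, mem_univ, true_and, mem_union, hLf, mem_lev]
        constructor
        · intro h
          by_cases h2 : ℓ + 1 < R.dep v
          · exact Or.inl h2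
          · have h3 : R.dep v = ℓ + 1 := by omega
            by_cases h4 : ∃ c, c ≠ R.r ∧ R.par c = v
            · exact Or.inr (Or.inr ⟨h3, h4⟩)
            · exact Or.inr (Or.inl ⟨h3, h4⟩)
        · rintro (h | h | h)
          · omega
          · omega
          · omega
      have h2 : Disjoint Lf (lev R (ℓ + 1)) := by
        rw [Finset.disjoint_left]
        intro v hv hv'
        exact ((hLf v).1 hv).2 ((mem_lev R _ v).1 hv').2
      have h3 : Disjoint (univ.filter fun v => ℓ + 1 < R.dep v) (Lf ∪ lev R (ℓ + 1)) := by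
        rw [Finset.disjoint_left]
        intro v hv hv'
        rw [mem_filter] at hv
        rw [mem_union] at hv'
        rcases hv' with h | h
        · have := ((hLf v).1 h).1; omega
        · have := ((mem_lev R _ v).1 h).1; omega
      rw [h1, card_union_of_disjoint h3, card_union_of_disjoint h2, hN', sum_range_succ']
      have h4 : ∑ j ∈ range k, ((lev R (ℓ + (j + 1))).card - 1) =
          ∑ j ∈ range k, ((lev R (ℓ + 1 + j)).card - 1) := by
        apply sum_congr rfl
        intro j _
        have : ℓ + (j + 1) = ℓ + 1 + j := by ring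
        rw [this]
      rw [h4, add_zero]
      omega

theorem mem_supertreeSizes_of_lay {V : Type*} [Fintype V] [DecidableEq V] (T : SimpleGraph V)
    (R : RT V) (hR : ∀ u v, T.Adj u v → (u ≠ R.r ∧ R.par u = v) ∨ (v ≠ R.r ∧ R.par v = u))
    (N : ℕ) (pos : V → ℕ) (E : ℕ → ℕ) (hr : pos R.r = 0) (h : Lay R 0 1 N pos E) :
    N ∈ supertreeSizes T := by
  classical
  have hdep : ∀ v, v ≠ R.r → 0 < R.dep v := by
    intro v hv
    rw [R.dep_par v hv]; omega
  let T' : SimpleGraph (Fin (N + 1)) :=
    { Adj := fun a b => (1 ≤ (a : ℕ) ∧ E a = b) ∨ (1 ≤ (b : ℕ) ∧ E b = a)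
      symm := ⟨fun a b h => h.symm⟩
      loopless := ⟨by
        intro a ha
        have : 1 ≤ (a : ℕ) ∧ E a = a := by
          rcases ha with h | h <;> exact h
        have h1 := (h.bd a this.1 (by have := a.2; omega)).2.1
        rw [this.2] at h1
        unfold ad at h1
        omega⟩ }
  have hElt : ∀ a : Fin (N + 1), 1 ≤ (a : ℕ) → E a < N + 1 := by
    intro a ha
    have := (h.bd a ha (by have := a.2; omega)).1
    omega
  have hreach : ∀ k, ∀ a : Fin (N + 1), E^[k] a < 1 → T'.Reachable a 0 := by
    intro k
    induction k with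
    | zero =>
      intro a ha
      have : a = 0 := Fin.ext (by simpa using ha)
      rw [this]
    | succ k ih =>
      intro a ha
      by_cases h0 : (a : ℕ) < 1
      · have : a = 0 := Fin.ext (by simpa using h0)
        rw [this]
      · rw [Function.iterate_succ_apply] at ha
        have h1 : T'.Adj a ⟨E a, hElt a (by omega)⟩ := Or.inl ⟨by omega, rfl⟩
        exact h1.reachable.trans (ih ⟨E a, hElt a (by omega)⟩ ha)
  have hconn : T'.Connected := by
    rw [connected_iff_exists_forall_reachable]
    refine ⟨0, fun a => ?_⟩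
    by_cases h0 : (a : ℕ) < 1
    · have : a = 0 := Fin.ext (by simpa using h0)
      rw [this]
    · obtain ⟨k, hk⟩ := h.reach a (by omega) (by have := a.2; omega)
      exact (hreach k a hk).symm
  have hT' : T'.IsTree := by
    apply isTree_of_par T' hconn 0
      (fun a => if ha : 1 ≤ (a : ℕ) then ⟨E a, hElt a ha⟩ else 0)
    rintro a b (⟨h1, h2⟩ | ⟨h1, h2⟩)
    · left
      refine ⟨fun h3 => by rw [h3] at h1; simp at h1, ?_⟩
      rw [dif_pos h1]
      exact Fin.ext h2
    · right
      refine ⟨fun h3 => by rw [h3] at h1; simp at h1, ?_⟩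
      rw [dif_pos h1]
      exact Fin.ext h2
  have hcard : T'.edgeSet.ncard = N := by
    have h1 := hT'.card_edgeFinset
    rw [Fintype.card_fin] at h1
    rw [Set.ncard_eq_toFinset_card' T'.edgeSet]
    have h2 : T'.edgeSet.toFinset = T'.edgeFinset := rfl
    rw [h2]
    omega
  refine ⟨T', hT', ⟨fun a => (a : ℕ), ?_, ?_, ?_⟩, ?_⟩
  · exact fun a b h => Fin.ext h
  · intro a
    have h2 := a.2
    show (a : ℕ) ≤ T'.edgeSet.ncard
    omega
  · have key : ∀ a b : Fin (N + 1), T'.Adj a b → ∃ c : Fin (N + 1), ∃ hc : 1 ≤ (c : ℕ),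
        s(a, b) = s(c, ⟨E c, hElt c hc⟩) ∧ |((a : ℕ) : ℤ) - (b : ℕ)| = ad c (E c) := by
      rintro a b (⟨h1, h2⟩ | ⟨h1, h2⟩)
      · refine ⟨a, h1, ?_, ?_⟩
        · rw [show b = ⟨E a, hElt a h1⟩ from Fin.ext h2.symm]
        · rw [abs_sub_nat, h2]
      · refine ⟨b, h1, ?_, ?_⟩
        · rw [show a = ⟨E b, hElt b h1⟩ from Fin.ext h2.symm]
          exact Sym2.eq_swap
        · rw [abs_sub_nat, h2, ad_comm]
    intro a b a' b' hab hab' hd
    obtain ⟨c, hc, h1, h2⟩ := key a b hab
    obtain ⟨c', hc', h1', h2'⟩ := key a' b' hab'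
    have hd' : |((a : ℕ) : ℤ) - (b : ℕ)| = |((a' : ℕ) : ℤ) - (b' : ℕ)| := hd
    rw [h2, h2'] at hd'
    have h3 := h.dif c c' hc (by have := c.2; omega) hc' (by have := c'.2; omega)
      (by exact_mod_cast hd')
    have h4 : c = c' := Fin.ext h3
    subst h4
    rw [h1, h1']
  · have hlt : ∀ v, pos v < N + 1 := by
      intro v
      by_cases hv : v = R.r
      · rw [hv, hr]; omega
      · have := h.mem v (hdep v hv)
        omega
    refine ⟨⟨⟨fun v => ⟨pos v, hlt v⟩, ?_⟩, ?_⟩⟩
    · intro u v huv
      rcases hR u v huv with ⟨h1, h2⟩ | ⟨h1, h2⟩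
      · left
        refine ⟨(h.mem u (hdep u h1)).1, ?_⟩
        rw [← h2]
        exact h.par u (hdep u h1)
      · right
        refine ⟨(h.mem v (hdep v h1)).1, ?_⟩
        rw [← h2]
        exact h.par v (hdep v h1)
    · intro u v huv
      have h1 : pos u = pos v := by simpa using huv
      by_cases hu : u = R.r
      · by_cases hv : v = R.r
        · rw [hu, hv]
        · exfalso
          have := h.mem v (hdep v hv)
          rw [hu, hr] at h1
          omega
      · by_cases hv : v = R.r
        · exfalso
          have := h.mem u (hdep u hu)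
          rw [hv, hr] at h1
          omega
        · exact h.inj u v (hdep u hu) (hdep v hv) h1

/-- the bound by levels for a tree rooted at `r` -/
theorem exists_supertree_of_root {V : Type*} [Fintype V] [DecidableEq V] (T : SimpleGraph V)
    (R : RT V) (hR : ∀ u v, T.Adj u v → (u ≠ R.r ∧ R.par u = v) ∨ (v ≠ R.r ∧ R.par v = u))
    (w : V) :
    ∃ N ∈ supertreeSizes T, N + R.dep w + 1 ≤ Fintype.card V +
      (univ.filter fun v => ∃ c, c ≠ R.r ∧ R.par c = v).card := by
  classical
  obtain ⟨h, hh⟩ : ∃ h, ∀ v, R.dep v ≤ h := ⟨univ.sup R.dep, fun v => le_sup (mem_univ v)⟩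
  by_cases hV : lev R 0 = ∅
  · have hd := dep_le_of_lev_empty R 0 hV
    have hdr : ∀ v, v = R.r := by
      intro v
      by_contra hv
      have h1 := R.dep_par v hv
      have h2 := hd _ v rfl
      omega
    refine ⟨0, ?_, ?_⟩
    · apply mem_supertreeSizes_of_lay T R hR 0 (fun _ => 0) id rfl
      constructor
      · intro v hv; have := hd _ v rfl; omega
      · intro u v hu; have := hd _ u rfl; omega
      · intro v hv; have := hd _ v rfl; omega
      · intro p h1 h2; omega
      · intro p q h1 h2; omega
      · intro p h1 h2; omega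
    · have h1 := hd _ w rfl
      have h2 : 0 < Fintype.card V := Fintype.card_pos_iff.2 ⟨w⟩
      omega
  · have hlev0 : lev R 0 = {R.r} := by
      have h1 : lev R 0 ⊆ {R.r} := by
        intro v hv
        rw [mem_lev] at hv
        rw [mem_singleton]
        by_contra h2
        have := R.dep_par v h2
        omega
      exact (Finset.subset_singleton_iff.1 h1).resolve_left hV
    obtain ⟨N, pos, E, hN, hpos, hlay⟩ := exists_lay R h 0 (by intro v; have := hh v; omega)
      (fun _ => 0) (by intro v _; rw [hlev0]; simp)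
    rw [hlev0, card_singleton] at hlay
    refine ⟨N, mem_supertreeSizes_of_lay T R hR N pos E
      (hpos R.r (by rw [hlev0]; simp)) hlay, ?_⟩
    have h1 : (univ.filter fun v => 0 < R.dep v).card + 1 = Fintype.card V := by
      have h2 : (univ.filter fun v => 0 < R.dep v) = univ.erase R.r := by
        ext v
        simp only [mem_filter, mem_univ, true_and, mem_erase, and_true]
        constructor
        · exact fun h3 => ne_root R h3
        · intro h3
          have := R.dep_par v h3
          omega
      rw [h2, card_erase_of_mem (mem_univ _), card_univ]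
      have : 0 < Fintype.card V := Fintype.card_pos_iff.2 ⟨w⟩
      omega
    -- the ancestors of `w`
    have h2 : ∀ n v, R.dep v = n → ∀ j < n, 1 ≤ (lev R j).card := by
      intro n
      induction n with
      | zero => intro v _ j hj; omega
      | succ n ih =>
        intro v hv j hj
        have hvr := ne_root R (v := v) (by omega)
        have h3 := R.dep_par v hvr
        rcases (Nat.lt_succ_iff.1 hj).lt_or_eq with h4 | h4
        · exact ih (R.par v) (by omega) j h4
        · rw [Nat.one_le_iff_ne_zero, card_ne_zero]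
          exact ⟨R.par v, (mem_lev R j _).2 ⟨by omega, v, hvr, rfl⟩⟩
    have h3 : ∑ j ∈ range h, ((lev R j).card - 1) + R.dep w ≤ ∑ j ∈ range h, (lev R j).card := by
      have h4 : ∑ j ∈ range h, (if j < R.dep w then 1 else 0) = R.dep w := by
        rw [← card_filter]
        have h5 : (range h).filter (fun j => j < R.dep w) = range (R.dep w) := by
          ext j
          rw [mem_filter, mem_range, mem_range]
          have := hh w
          omega
        rw [h5, card_range]
      rw [← h4, ← sum_add_distrib]
      apply sum_le_sum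
      intro j _
      split_ifs with h5
      · have := h2 _ w rfl j h5
        omega
      · omega
    have h4 : ∑ j ∈ range h, (lev R j).card ≤
        (univ.filter fun v => ∃ c, c ≠ R.r ∧ R.par c = v).card := by
      rw [← card_biUnion]
      · apply card_le_card
        intro v hv
        rw [mem_biUnion] at hv
        obtain ⟨j, _, hj⟩ := hv
        rw [mem_lev] at hj
        rw [mem_filter]
        exact ⟨mem_univ _, hj.2⟩
      · intro i _ j _ hij
        rw [Function.onFun, Finset.disjoint_left]
        intro v hv hv'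
        rw [mem_lev] at hv hv'
        exact hij (hv.1.symm.trans hv'.1)
    have h5 : ∑ j ∈ range h, ((lev R (0 + j)).card - 1) = ∑ j ∈ range h, ((lev R j).card - 1) := by
      simp
    rw [h5] at hN
    omega

end Pool.Agent.GracefulLevel
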