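import Mathlib
import Pool.Agent.GracefulLevel.Main

set_option autoImplicit false

namespace Pool.Agent.GracefulLevel.ResultLevelBound

open SimpleGraph Pool.Agent.Graceful Pool.Agent.GracefulAsym Pool.Agent.GracefulLevel

/-- Every tree `T` with `m` edges, `i` vertices of degree at least `2` and diameter `D` is a
subtree of a graceful tree with at most `m + i + 1 - D` edges. (When `D ≥ 1`, `i + 1 - D` is the
number of vertices of degree `≥ 2` outside a longest path.) -/
theorem result {V : Type*} [Finite V] (T : SimpleGraph V) (hT : T.IsTree) :
    (supertreeSizes T).Nonempty ∧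
      gamma T + T.diam ≤
        T.edgeSet.ncard + {v : V | 2 ≤ (T.neighborSet v).ncard}.ncard + 1 := by
  classical
  have := Fintype.ofFinite V
  have hne : Nonempty V := hT.connected.nonempty
  obtain ⟨r, w, hrw⟩ := T.exists_dist_eq_diam
  obtain ⟨par, depth, h1, h2, h3, h4⟩ := exists_parent T hT r
  let R : RT V := ⟨r, par, depth, h3, h2⟩
  -- the depth is at least the distance
  have hdist : ∀ n v, depth v = n → T.dist r v ≤ n := by
    intro n
    induction n with
    | zero =>
      intro v hv
      have : v = r := by
        by_contra hvr
        have := h2 v hvr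
        omega
      rw [this]; simp
    | succ n ih =>
      intro v hv
      have hvr : v ≠ r := by
        rintro rfl
        omega
      have h5 := ih (par v) (by have := h2 v hvr; omega)
      have h6 := hT.connected.dist_triangle (u := r) (v := par v) (w := v)
      have h7 : T.dist (par v) v = 1 := dist_eq_one_iff_adj.2 (h1 v hvr).symm
      omega
  obtain ⟨N, hN, hN'⟩ := exists_supertree_of_root T R h4 w
  have hg : gamma T ≤ N := Nat.sInf_le hN
  have hw := hdist _ w rfl
  rw [hrw] at hw
  have hm : T.edgeSet.ncard + 1 = Nat.card V := (isTree_iff_connected_and_card.1 hT).2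
  rw [Nat.card_eq_fintype_card] at hm
  have hcount : (Finset.univ.filter fun v => ∃ c, c ≠ R.r ∧ R.par c = v).card ≤
      {v : V | 2 ≤ (T.neighborSet v).ncard}.ncard + 1 := by
    have h5 : (Finset.univ.filter fun v => ∃ c, c ≠ R.r ∧ R.par c = v) ⊆
        {v : V | 2 ≤ (T.neighborSet v).ncard}.toFinset ∪ {r} := by
      intro v hv
      rw [Finset.mem_filter] at hv
      obtain ⟨-, c, hc, hcv⟩ := hv
      rw [Finset.mem_union, Finset.mem_singleton, Set.mem_toFinset, Set.mem_ofPred_eq]
      by_cases hvr : v = r
      · exact Or.inr hvr
      · left
        have h6 : T.Adj c (par c) := h1 c hc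
        have h7 : par c = v := hcv
        rw [h7] at h6
        have h8 : T.Adj v (par v) := h1 v hvr
        have h9 : c ≠ par v := by
          intro h
          have h10 := h2 c hc
          have h11 := h2 v hvr
          rw [h7] at h10
          rw [← h] at h11
          omega
        have h10 : ({c, par v} : Set V) ⊆ T.neighborSet v := by
          intro x hx
          rcases hx with rfl | hx
          · exact h6.symm
          · rw [Set.mem_singleton_iff.1 hx]; exact h8
        have h11 := Set.ncard_le_ncard h10 (Set.toFinite _)
        rw [Set.ncard_pair h9] at h11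
        exact h11
    have h6 := (Finset.card_le_card h5).trans (Finset.card_union_le _ _)
    rw [Finset.card_singleton, ← Set.ncard_eq_toFinset_card'] at h6
    exact h6
  refine ⟨⟨N, hN⟩, ?_⟩
  have h5 : R.dep w = depth w := rfl
  omega

end Pool.Agent.GracefulLevel.ResultLevelBound
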